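import Mathlib
import Pool.Agent.W422.GC.Up

/-!
# The strong monodromy conjecture for polynomials with very general coefficients at the vertices

Let `F ⊆ ℂ` be a field and `f = ∑_j a_j x ^ (v j) + h`, where `h ∈ F[x_1, …, x_N]` is an ARBITRARY
polynomial whose exponents lie in the convex hull of the `v j ≠ 0`, and only the coefficients `a_j`
(for instance at the vertices of the Newton polytope of `f`) are algebraically independent over `F`.
Then `b_f(s) Z(s)` is a polynomial in `s`, where `Z` is the global topological zeta function of `f`:
every pole of `Z` is a root of `b_f`, of at least the same order.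

For every polynomial `h ∈ ℂ[x]` this applies, with `F` the field generated by its coefficients, to
all `a ∈ ℂ ^ r` outside a countable union of hypersurfaces.
-/

set_option autoImplicit false

namespace Pool.Agent.W425.Moved.GeneralCoefficients504089

open Polynomial Pool.Agent.H628R4.TZ Pool.Agent.H628R4.TP Pool.Agent.W425.SM Pool.Agent.W425.SV
  Pool.Agent.W422.GC

/-- **The strong monodromy conjecture, with multiplicities, for `f = ∑_j a_j x ^ (v j) + h`, `h`
arbitrary over the field `F` with exponents in the convex hull of the `v j`, the `a_j` algebraically
independent over `F`.**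

`IsBFunction f b` says that `b(s) f ^ s = P(s) f ^ (s + 1)` for a differential operator `P(s)`. The
Bernstein-Sato polynomial `b_f` is the monic one of least degree of these polynomials.

`R` is any smooth fan with support the positive orthant on which the ideal `(x ^ (v j))_j` becomes
principal, and `topZetaG v R` is the global topological zeta function of `f`, computed on the
embedded resolution `X_R`:
`∑_{σ ∈ R} ((chiO σ - chiG v R σ) + chiG v R σ / (s + 1)) ∏_{ρ ∈ σ} 1 / (ord(ρ) s + |ρ|)`.
Here `chiO σ` is the Euler characteristic of the torus orbit of `σ` and
`chiG v R σ = (-1) ^ (N - dim σ - 1) Vol` (for `dim σ < N`, and `0` for `dim σ = N`) that of the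
strict transform of `{f = 0}` in the orbit (Kouchnirenko), where `Vol` is the normalised volume of
the face of `σ` of the convex hull of the `v j`: the Lebesgue volume in lattice coordinates, divided
by that of the standard simplex. -/
theorem result {r N : ℕ} (hr : 1 ≤ r) (F : Subfield ℂ) (v : Fin r → Fin N → ℕ) (a : Fin r → ℂ)
    (hv : Function.Injective v) (hv0 : ∀ j, v j ≠ 0) (ha : AlgebraicIndependent F a)
    (h : MvPolynomial (Fin N) F) (hh : ∀ w ∈ h.support, Hull v w)
    (R : SmoothFan N) (hR : Principal v R) (b : ℂ[X])
    (hb : IsBFunction (sparse v a + MvPolynomial.map (algebraMap F ℂ) h) b) :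
    ∃ P : ℂ[X], algebraMap ℂ[X] (RatFunc ℂ) b * topZetaG v R =
      algebraMap ℂ[X] (RatFunc ℂ) P :=
  finalGlobalC hr v a hv hv0 ha h hh R hR b hb

end Pool.Agent.W425.Moved.GeneralCoefficients504089
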