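import Mathlib
import Pool.Agent.W425.MM.StrongE
import Pool.Agent.W585.MM.RAY
import Pool.Agent.W692.MM.GN2
import Pool.Agent.W790.MM.GN1

/-!
# The equivariant motivic monodromy conjecture, strong form, for general coefficients

Let `f = ∑_j c_j x ^ (v j) + h` be a polynomial in `n` variables over a field `k ⊂ ℂ`, whose
coefficients `c_j` are algebraically independent over the field `F ⊂ k` of the coefficients of `h`,
and the exponents of `h` are in the Newton polyhedron `conv {v j} + ℝ_{≥ 0} ^ n`.

If no candidate pole `- |a| / N_a ≠ -1` comes only from `B1`-facets of the Newton polyhedron, then the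
motivic zeta function of Denef and Loeser, with coefficients in the localised Grothendieck ring of
varieties over `X_s = {f = 0}` with action of `μ̂`, lies in the ring generated by `T` and finitely many
`1 / (1 - 𝕃 ^ a T ^ b)` with `a < 0 < b` and `a / b` a root of the Bernstein-Sato polynomial of `f`.
-/

set_option autoImplicit false

namespace Pool.Agent.W425.Moved.GeneralCoefficientsb48657

open MvPolynomial Pool.Agent.W428.MOT Pool.Agent.W425.MM Pool.Agent.W425.ND

/-- **The equivariant motivic monodromy conjecture (Bernstein-Sato form, global form over `X_s`,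
with the action of `μ̂`) for the polynomials `f = ∑_j c_j x ^ (v j) + h` with general coefficients
`c_j` and without candidate poles which come only from `B1`-facets.**

`spa v c` is the polynomial `∑_j c_j x ^ (v j)`. `NP v w` says that `w` is in the Newton polyhedron
`conv {v j} + ℝ_{≥ 0} ^ n`.

`NoB1s v False` says that for every ray `a` of the normal fan of the Newton polyhedron (`IsRay v a`)
with `N_a := gord v a = min_j ⟨a, v j⟩ > 0` either `|a| = N_a`, or `|a| / N_a = |a'| / N_{a'}`
for some `a' ∈ ℕ ^ n` with `N_{a'} > 0` and `NonB v False a'`: there is a set `J` of `#{i | a' i ≠ 0}`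
elements with `⟨a', v j⟩ = N_{a'}` for `j ∈ J` such that the vectors `(v j i)_{a' i ≠ 0}`, `j ∈ J`, are
linearly independent and such that no variable `x_i` with `a' i ≠ 0` occurs in exactly one of the
monomials `x ^ (v j)`, `j ∈ J`, and there with exponent `1`.

`IsBFunction f b` says that `b(s) f ^ s = P(s) f ^ (s + 1)` for a differential operator `P(s)` in the
Weyl algebra, polynomial in `s`; the Bernstein-Sato polynomial `b_f` is one of these polynomials
`b`. -/
theorem result (F k : Type) [Field F] [Field k] [Algebra F k] [Algebra F ℂ] [Algebra k ℂ]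
    [IsScalarTower F k ℂ] {n r : ℕ} (hr : 1 ≤ r) (v : Fin r → Fin n → ℕ) (c : Fin r → k)
    (hv : Function.Injective v) (hv0 : ∀ j, v j ≠ 0) (hc : AlgebraicIndependent F c)
    (h : MvPolynomial (Fin n) F) (hh : ∀ w ∈ h.support, Pool.Agent.W425.SV.NP v w)
    (hB : NoB1s v False) :
    ∃ S : Finset (ℤ × ℤ),
      (∀ p ∈ S, p.1 < 0 ∧ 0 < p.2 ∧ ∀ b : Polynomial ℂ,
        Pool.Agent.H628R4.TP.IsBFunction
          (spa v (fun j => algebraMap k ℂ (c j)) + MvPolynomial.map (algebraMap F ℂ) h) b →
          b.eval ((p.1 : ℂ) / p.2) = 0) ∧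
      InRat (LuMu (spa v c + MvPolynomial.map (algebraMap F k) h)) S
        (zetaE (spa v c + MvPolynomial.map (algebraMap F k) h)) := by
  obtain ⟨S, hS, hz⟩ := strongE (Pool.Agent.W692.MM.gn2 Pool.Agent.W790.MM.taskGN1)
    Pool.Agent.W585.MM.RAY.ray hr v c hv hv0 hc h hh False hB ⊥ (fun g hg => by
      rw [Submonoid.mem_bot] at hg
      exact ⟨by rw [hg, map_one], fun _ => hg⟩)
  exact ⟨S, fun p hp => ⟨(hS p hp).1, (hS p hp).2.1, fun b hb =>
    (hS p hp).2.2 b ((Pool.Agent.W591.GC.J_bot _ b).2 hb)⟩, hz⟩

end Pool.Agent.W425.Moved.GeneralCoefficientsb48657
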