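import Mathlib
import Pool.Agent.W425.MM.Strong
import Pool.Agent.W585.MM.RAY
import Pool.Agent.W692.MM.GN2
import Pool.Agent.W790.MM.GN1

/-!
# The motivic monodromy conjecture, strong form, for general coefficients

Let `f = ∑_j c_j x ^ (v j) + h` be a polynomial in `n` variables over a field `k ⊂ ℂ`, whose
coefficients `c_j` are algebraically independent over the field `F ⊂ k` of the coefficients of `h`,
and the exponents of `h` are in the Newton polyhedron `conv {v j} + ℝ_{≥ 0} ^ n`. So only the
coefficients at the vertices of the Newton polyhedron (and as many others as one wants) have to be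
general, all the other coefficients are arbitrary elements of `F`. The number of variables and the
singularities are arbitrary (they need not be isolated).

If no candidate pole `- |a| / N_a ≠ -1` comes only from `B1`-facets of the Newton polyhedron, then the
motivic monodromy conjecture holds for `f` in its strong (Bernstein-Sato) form: at every point `x` of
`{f = 0}`, with coordinates in an arbitrary extension field `K` of `k`, the local motivic zeta function
`Z_{f,x}(T)` lies in the ring generated by `T` and finitely many `1 / (1 - 𝕃 ^ a T ^ b)` with `a < 0 < b`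
such that `a / b` is a root of the Bernstein-Sato polynomial `b_f`.

Method. The functional equation of `b_f` gives an algebraic relation between polynomials in
`X_1, …, X_r` (one variable for every `c_j`). Functionals (integrals over the coordinate subspace
`{x_i = 0 : a_i = 0}` of smoothed delta and step functions), one for each facet `a`, are applied to
this relation; the limit of the functional of the kernel `∏_{j ∈ J} X_j` is `c / (N_a s + |a|)` with
`c ≠ 0`, which shows that `- |a| / N_a` is a root.
-/

set_option autoImplicit false

namespace Pool.Agent.W425.Moved.GeneralCoefficientsb91a16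

open MvPolynomial Pool.Agent.W428.MOT Pool.Agent.W375.MG Pool.Agent.W425.MM
  Pool.Agent.W425.ND

/-- **The motivic monodromy conjecture (Bernstein-Sato form) for the polynomials
`f = ∑_j c_j x ^ (v j) + h` with general coefficients `c_j` and without candidate poles which come only
from `B1`-facets, at all points.**

`spa v c` is the polynomial `∑_j c_j x ^ (v j)`. `NP v w` says that `w` is in the Newton polyhedron
`conv {v j} + ℝ_{≥ 0} ^ n`.

`NoB1s v False` says that for every ray `a` of the normal fan of the Newton polyhedron (`IsRay v a`)
with `N_a := gord v a = min_j ⟨a, v j⟩ > 0` either `|a| = N_a`, or `|a| / N_a = |a'| / N_{a'}`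
for some `a' ∈ ℕ ^ n` with `N_{a'} > 0` and `NonB v False a'`: there is a set `J` of `#{i | a' i ≠ 0}`
elements with `⟨a', v j⟩ = N_{a'}` for `j ∈ J` such that the vectors `(v j i)_{a' i ≠ 0}`, `j ∈ J`, are
linearly independent and such that no variable `x_i` with `a' i ≠ 0` occurs in exactly one of the
monomials `x ^ (v j)`, `j ∈ J`, and there with exponent `1`.

`IsBFunction f b` says that `b(s) f ^ s = P(s) f ^ (s + 1)` for a differential operator `P(s)` in the
Weyl algebra, polynomial in `s`; the Bernstein-Sato polynomial `b_f` is one of these polynomials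
`b`. -/
theorem result (F k : Type) [Field F] [Field k] [Algebra F k] [Algebra F ℂ] [Algebra k ℂ]
    [IsScalarTower F k ℂ] {n r : ℕ} (hr : 1 ≤ r) (v : Fin r → Fin n → ℕ) (c : Fin r → k)
    (hv : Function.Injective v) (hv0 : ∀ j, v j ≠ 0) (hc : AlgebraicIndependent F c)
    (h : MvPolynomial (Fin n) F) (hh : ∀ w ∈ h.support, Pool.Agent.W425.SV.NP v w)
    (hB : NoB1s v False) :
    ∃ S : Finset (ℤ × ℤ),
      (∀ p ∈ S, p.1 < 0 ∧ 0 < p.2 ∧ ∀ b : Polynomial ℂ,
        Pool.Agent.H628R4.TP.IsBFunction
          (spa v (fun j => algebraMap k ℂ (c j)) + MvPolynomial.map (algebraMap F ℂ) h) b →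
          b.eval ((p.1 : ℂ) / p.2) = 0) ∧
      ∀ (K : Type) [Field K] [Algebra k K] (x : Fin n → K),
        eval x (MvPolynomial.map (algebraMap k K)
          (spa v c + MvPolynomial.map (algebraMap F k) h)) = 0 →
        zeta (MvPolynomial.map (algebraMap k K)
          (spa v c + MvPolynomial.map (algebraMap F k) h)) x ∈ ratRing K S := by
  obtain ⟨S, hS, hz⟩ := strong (Pool.Agent.W692.MM.gn2 Pool.Agent.W790.MM.taskGN1)
    Pool.Agent.W585.MM.RAY.ray hr v c hv hv0 hc h hh False hB ⊥ (fun g hg => by
      rw [Submonoid.mem_bot] at hg
      exact ⟨by rw [hg, map_one], fun _ => hg⟩)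
  refine ⟨S, fun p hp => ⟨(hS p hp).1, (hS p hp).2.1, fun b hb => ?_⟩, fun K _ _ x _ => ?_⟩
  · exact (hS p hp).2.2 b ((Pool.Agent.W591.GC.J_bot _ b).2 hb)
  · have e1 : MvPolynomial.map (algebraMap k K) (spa v c + MvPolynomial.map (algebraMap F k) h) =
        spa v (fun j => algebraMap k K (c j)) +
          MvPolynomial.map ((algebraMap k K).comp (algebraMap F k)) h := by
      rw [map_add, MvPolynomial.map_map]
      congr 1
      unfold spa
      simp
    rw [e1]
    exact zeta_mem _ x S (fun W E hW hE => hz K W E hW hE)

end Pool.Agent.W425.Moved.GeneralCoefficientsb91a16
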