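import Mathlib
import Pool.Agent.W425.SU.Final

/-!
# The strong monodromy conjecture for ideals with very general coefficients at the vertices

Let `F ⊆ ℂ` be a field and `I = (f_1, …, f_k)` an ideal of `ℂ[x_1, …, x_N]` generated by
polynomials `f_i = ∑_{π j = i} a_j x ^ (w j) + h_i`, where `h_i ∈ F[x_1, …, x_N]` is an ARBITRARY
polynomial whose exponents lie in the convex hull of the `w j` with `π j = i`, and only the
coefficients `a_j` (for instance at the vertices of the Newton polytopes of the `f_i`) are
algebraically independent over `F`. Then `b_I(s) Z_I(s)` is a polynomial in `s`, where `Z_I` is the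
topological zeta function of the ideal. It is enough that the `f_i` have this form after a diagonal
change of variables `x_l → t_l x_l` and multiplication of the generators by constants `c_i`; so the
theorem contains the monomial ideals `(x ^ (w 1), …, x ^ (w k))` (with `a_i = c_i`).
-/

set_option autoImplicit false

namespace Pool.Agent.W425.Moved.GenericIdealsee8c61

open Polynomial Pool.Agent.H628R4.TZ Pool.Agent.W425.SM Pool.Agent.W425.SI Pool.Agent.W425.SU

/-- **The strong monodromy conjecture, with multiplicities (Q2, hence Q1), for ideals generated by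
polynomials with very general coefficients at the vertices and arbitrary other coefficients.**

`gens π w a i = ∑_{π j = i} a_j x ^ (w j)`, and `HullAt π w i u` says that `u` lies in the convex
hull of the `w j` with `π j = i`. `IsFunctionalEq f b` is the functional equation in the definition
of `b_I`, `I = (f_1, …, f_k)`; `b_I` is the monic one of least degree of these polynomials.

`topZetaI π w R` is `Z_I(s) = (s + 1) Z_g(s)`, where
`g = ∑ y_i (f_i) = ∑_j a_j y_(π j) x ^ (w j) + ∑ y_i h_i` in the `k + N` variables `y, x` has the
exponents `cay π w j = (e_(π j), w j)`, and `Z_g(s) = topZetaG (cay π w) R` is its global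
topological zeta function
`∑_{σ ∈ R} ((chiO σ - chiG v R σ) + chiG v R σ / (s + 1)) ∏_{ρ ∈ σ} 1 / (ord(ρ) s + |ρ|)`
computed on the toric embedded resolution given by any smooth fan `R` with support the positive
orthant of `ℝ ^ (k + N)` on which the ideal `(x ^ (v j))_j`, `v = cay π w`, becomes principal.
Here `chiO σ` is the Euler characteristic of the torus orbit of `σ` and
`chiG v R σ = (-1) ^ (k + N - dim σ - 1) Vol` (`0` for `dim σ = k + N`) that of the strict transform
of `{g = 0}` in the orbit (Kouchnirenko), where `Vol` is the normalised volume of the face of `σ`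
of the convex hull of the `v j`: the Lebesgue volume in lattice coordinates, divided by that of the
standard simplex. -/
theorem result {r k N : ℕ} (hr : 1 ≤ r) (F : Subfield ℂ) (π : Fin r → Fin k)
    (w : Fin r → Fin N → ℕ) (a : Fin r → ℂ) (hw : Function.Injective fun j => (π j, w j))
    (ha : AlgebraicIndependent F a) (h : Fin k → MvPolynomial (Fin N) F)
    (hh : ∀ i, ∀ u ∈ (h i).support, HullAt π w i u)
    (f : Fin k → MvPolynomial (Fin N) ℂ) (c : Fin k → ℂ) (t : Fin N → ℂ) (hc : ∀ i, c i ≠ 0)
    (ht : ∀ l, t l ≠ 0)
    (hf : ∀ i, MvPolynomial.C (c i) *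
      MvPolynomial.aeval (fun l => MvPolynomial.C (t l) * MvPolynomial.X l) (f i) =
      gens π w a i + MvPolynomial.map (algebraMap F ℂ) (h i))
    (R : SmoothFan (k + N)) (hR : Principal (cay π w) R) (b : ℂ[X])
    (hb : Pool.Agent.W574.SM.IsFunctionalEq f b) :
    ∃ P : ℂ[X], algebraMap ℂ[X] (RatFunc ℂ) b * topZetaI π w R =
      algebraMap ℂ[X] (RatFunc ℂ) P :=
  finalIdealC hr π w a hw ha h hh f c t hc ht hf R hR b hb

end Pool.Agent.W425.Moved.GenericIdealsee8c61
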