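import Mathlib
import Pool.Agent.W425.SU.Final

/-!
# The local monodromy conjecture for very general coefficients at the vertices

Let `F ⊆ ℂ` be a field and `f = ∑_j a_j x ^ (v j) + h`, where `h ∈ F[x_1, …, x_N]` is an ARBITRARY
polynomial whose exponents lie in the Newton polyhedron of the `v j ≠ 0`, and only the coefficients
`a_j` (for instance at the vertices of the Newton polyhedron) are algebraically independent over
`F`. Then `b_{f,0}(s) Z_0(s)` is a polynomial in `s`, where `b_{f,0}` is the Bernstein-Sato
polynomial of the germ of `f` at the origin and `Z_0` its local topological zeta function: every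
pole of `Z_0` is a root of `b_{f,0}`, of at least the same order. It is enough that `f` has this
form after a diagonal change of variables `x_l → t_l x_l` and multiplication by a constant.
-/

set_option autoImplicit false

namespace Pool.Agent.W425.Moved.GenericVerticesLocalaa7fc1

open Polynomial Pool.Agent.H628R4.TZ Pool.Agent.W425.SM Pool.Agent.W425.SV
  Pool.Agent.W422.GC

/-- **The monodromy conjecture at the origin, in the strong form with multiplicities, for
`f = ∑_j a_j x ^ (v j) + h`, `h` arbitrary over the field `F` with exponents in the Newton
polyhedron of the `v j`, the `a_j` algebraically independent over `F` (after a diagonal change of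
variables).**

`IsLocalBFunction f b` says that `b(s) f ^ s = P(s) f ^ (s + 1)` for a differential operator `P(s)`
with (formal, in particular convergent) power series at the origin as coefficients. The
Bernstein-Sato polynomial `b_{f,0}` is the monic one of least degree of these polynomials (for
convergent power series).

`R` is any smooth fan with support the positive orthant on which the ideal `(x ^ (v j))_j` becomes
principal, and `topZetaGLocal v R` is the local topological zeta function of `f` at the origin,
computed on the embedded resolution `X_R`: the sum over the cones `σ` of `R` whose orbit lies over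
the origin of
`((chiO σ - chiG v R σ) + chiG v R σ / (s + 1)) ∏_{ρ ∈ σ} 1 / (ord(ρ) s + |ρ|)`.
Here `chiO σ` is the Euler characteristic of the torus orbit of `σ` and
`chiG v R σ = (-1) ^ (N - dim σ - 1) Vol` (for `dim σ < N`, and `0` for `dim σ = N`) that of the
strict transform of `{f = 0}` in the orbit (Kouchnirenko), where `Vol` is the normalised volume of
the compact face of `σ` of the Newton polyhedron of the `v j`: the Lebesgue volume in lattice
coordinates, divided by that of the standard simplex. -/
theorem result {r N : ℕ} (hr : 1 ≤ r) (F : Subfield ℂ) (v : Fin r → Fin N → ℕ) (a : Fin r → ℂ)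
    (hv : Function.Injective v) (hv0 : ∀ j, v j ≠ 0) (ha : AlgebraicIndependent F a)
    (h : MvPolynomial (Fin N) F) (hh : ∀ w ∈ h.support, NP v w)
    (f : MvPolynomial (Fin N) ℂ) (c : ℂ) (t : Fin N → ℂ) (hc : c ≠ 0) (ht : ∀ l, t l ≠ 0)
    (hf : MvPolynomial.C c *
      MvPolynomial.aeval (fun l => MvPolynomial.C (t l) * MvPolynomial.X l) f =
      sparse v a + MvPolynomial.map (algebraMap F ℂ) h)
    (R : SmoothFan N) (hR : Principal v R) (b : ℂ[X]) (hb : Pool.Agent.H628R4.TP.IsLocalBFunction f b) :
    ∃ P : ℂ[X], algebraMap ℂ[X] (RatFunc ℂ) b * topZetaGLocal v R =
      algebraMap ℂ[X] (RatFunc ℂ) P :=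
  Pool.Agent.W425.SU.finalLocalS hr v a hv hv0 ha h hh f c t hc ht hf R hR b hb

end Pool.Agent.W425.Moved.GenericVerticesLocalaa7fc1
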